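import Mathlib
import Pool.Agent.W5h92.Elem.Growth
import Pool.Agent.W5h92.Elem.Transport

/-! Infinitely many elementary components of the Hilbert schemes of points of affine 3-space. -/

set_option autoImplicit false

open Pool.Agent.Helper226 Pool.Agent.W5h92.Elem

universe u

namespace Pool.Agent.Results.MP_5ec99c_ag.InfinitelyMany

/-- Over every algebraically closed field `k`, the Hilbert schemes of points of affine 3-space
exist and, for every choice of them, there are elementary components of `Hilb_r` for arbitrarily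
large `r`; in particular the set of all pairs `(r, C)` with `1 ≤ r` and `C` an elementary component
of `Hilb_r` is infinite. -/
theorem result (k : Type u) [Field k] [IsAlgClosed k] :
    (∀ r : ℕ, Nonempty (HilbertScheme k (MvPolynomial (Fin 3) k) r)) ∧
    ∀ 𝓗 : ∀ r : ℕ, HilbertScheme k (MvPolynomial (Fin 3) k) r,
      (∀ R : ℕ, ∃ r : ℕ, R < r ∧ ∃ C : Set (𝓗 r).H, IsElementary (𝓗 r) C) ∧
      {p : Σ r : ℕ, Set (𝓗 r).H | 1 ≤ p.1 ∧ IsElementary (𝓗 p.1) p.2}.Infinite := by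
  refine ⟨fun r => ⟨hilb k _ r⟩, fun 𝓗 => ?_⟩
  have key : ∀ R : ℕ, ∃ r : ℕ, R < r ∧ ∃ C : Set (𝓗 r).H, IsElementary (𝓗 r) C := by
    intro R
    obtain ⟨r, hr, C, hC⟩ := exists_elementary (k := k) R
    exact ⟨r, hr, _, hC.transport (𝓗 r)⟩
  refine ⟨key, ?_⟩
  intro hfin
  have h1 : ((fun p : Σ r : ℕ, Set (𝓗 r).H => p.1) ''
      {p : Σ r : ℕ, Set (𝓗 r).H | 1 ≤ p.1 ∧ IsElementary (𝓗 p.1) p.2}).Finite := hfin.image _
  obtain ⟨M, hM⟩ := h1.bddAbove
  obtain ⟨r, hr, C, hC⟩ := key M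
  have h3 : 1 ≤ r := by omega
  have h2 : r ≤ M := hM ⟨⟨r, C⟩, ⟨h3, hC⟩, rfl⟩
  omega

end Pool.Agent.Results.MP_5ec99c_ag.InfinitelyMany
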